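import Pool.Agent.Helper74.CO.Goals2

/-!
# Packet CO-BOX2 (project CO, MP_c5396e_co): joint distribution in boxes of two functions
-/

set_option autoImplicit false

namespace Pool.Agent.Helper27.CO

open Finset Pool.Agent.Helper74.CO

/-- The integers in a real interval. -/
theorem card_int (K : ℕ) (lo hi : ℝ) (h : lo ≤ hi) :
    (#((range K).filter (fun m : ℕ => lo ≤ (m : ℝ) ∧ (m : ℝ) ≤ hi)) : ℝ) ≤ hi - lo + 1 := by
  have h1 : #((range K).filter (fun m : ℕ => lo ≤ (m : ℝ) ∧ (m : ℝ) ≤ hi)) ≤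
      #(Icc ⌈lo⌉ ⌊hi⌋) := by
    refine Finset.card_le_card_of_injOn (fun m : ℕ => (m : ℤ)) ?_ ?_
    · intro m hm
      have hm' := (Finset.mem_filter.1 hm).2
      exact Finset.mem_coe.2 (Finset.mem_Icc.2
        ⟨Int.ceil_le.2 (by exact_mod_cast hm'.1), Int.le_floor.2 (by exact_mod_cast hm'.2)⟩)
    · intro m _ m' _ hmm
      have hmm' : (m : ℤ) = (m' : ℤ) := hmm
      exact_mod_cast hmm'
  rw [Int.card_Icc] at h1
  have h2 : ((⌊hi⌋ + 1 - ⌈lo⌉).toNat : ℝ) ≤ hi - lo + 1 := by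
    have h3 : ((⌊hi⌋ + 1 - ⌈lo⌉).toNat : ℤ) = max (⌊hi⌋ + 1 - ⌈lo⌉) 0 := Int.toNat_eq_max _
    have h4 : (((⌊hi⌋ + 1 - ⌈lo⌉).toNat : ℤ) : ℝ) = max ((⌊hi⌋ : ℝ) + 1 - ⌈lo⌉) 0 := by
      rw [h3]
      push_cast
      rfl
    have h5 : (((⌊hi⌋ + 1 - ⌈lo⌉).toNat : ℤ) : ℝ) = ((⌊hi⌋ + 1 - ⌈lo⌉).toNat : ℝ) := by
      norm_cast
    rw [← h5, h4]
    have h6 := Int.floor_le hi
    have h7 := Int.le_ceil lo
    exact max_le (by linarith) (by linarith)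
  exact le_trans (by exact_mod_cast h1) h2

/-- The points of the grid close to the interval `i` modulo one. -/
noncomputable def Sset (K G : ℕ) (ρ : ℝ) (i : ℕ) : Finset ℕ :=
  (((range K).filter (fun m : ℕ => K * (i / G - ρ) ≤ (m : ℝ) ∧ (m : ℝ) ≤ K * ((i + 1) / G + ρ))) ∪
    ((range K).filter (fun m : ℕ => (0 : ℝ) ≤ (m : ℝ) ∧ (m : ℝ) ≤ K * ρ))) ∪
    ((range K).filter (fun m : ℕ => K * (1 - ρ) ≤ (m : ℝ) ∧ (m : ℝ) ≤ K))

theorem card_Sset (K G : ℕ) (ρ : ℝ) (hρ : 0 ≤ ρ) (i : ℕ) :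
    (#(Sset K G ρ i) : ℝ) ≤ K * (1 / G + 4 * ρ) + 3 := by
  have hK : (0 : ℝ) ≤ K := Nat.cast_nonneg K
  have hKρ : 0 ≤ (K : ℝ) * ρ := mul_nonneg hK hρ
  have hG : (0 : ℝ) ≤ 1 / G := by positivity
  have hKG : (0 : ℝ) ≤ K * (1 / G) := mul_nonneg hK hG
  have e : ((i : ℝ) + 1) / G = i / G + 1 / G := by rw [add_div]
  have h1 := card_int K (K * (i / G - ρ)) (K * ((i + 1) / G + ρ)) (by
    rw [e]
    nlinarith)
  have h2 := card_int K 0 (K * ρ) hKρ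
  have h3 := card_int K (K * (1 - ρ)) K (by nlinarith)
  have h4 : #(Sset K G ρ i) ≤ #((range K).filter (fun m : ℕ => K * (i / G - ρ) ≤ (m : ℝ) ∧
      (m : ℝ) ≤ K * ((i + 1) / G + ρ))) +
      #((range K).filter (fun m : ℕ => (0 : ℝ) ≤ (m : ℝ) ∧ (m : ℝ) ≤ K * ρ)) +
      #((range K).filter (fun m : ℕ => K * (1 - ρ) ≤ (m : ℝ) ∧ (m : ℝ) ≤ K)) := by
    unfold Sset
    refine (Finset.card_union_le _ _).trans ?_
    exact Nat.add_le_add_right (Finset.card_union_le _ _) _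
  have h5 : (#(Sset K G ρ i) : ℝ) ≤ #((range K).filter (fun m : ℕ => K * (i / G - ρ) ≤ (m : ℝ) ∧
      (m : ℝ) ≤ K * ((i + 1) / G + ρ))) +
      #((range K).filter (fun m : ℕ => (0 : ℝ) ≤ (m : ℝ) ∧ (m : ℝ) ≤ K * ρ)) +
      #((range K).filter (fun m : ℕ => K * (1 - ρ) ≤ (m : ℝ) ∧ (m : ℝ) ≤ K)) := by
    exact_mod_cast h4
  have h6 : K * (((i : ℝ) + 1) / G + ρ) - K * (i / G - ρ) = K * (1 / G) + 2 * (K * ρ) := by
    rw [e]
    ring
  nlinarith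

/-- The mass of the Fejér weights near the interval. -/
theorem mass (hF : FEJ) (hP : POU) (K G : ℕ) (hK : 1 ≤ K) (hG : 1 ≤ G) (ρ : ℝ) (hρ : 0 < ρ)
    (i : ℕ) (hi : i < G) (t : ℝ) (h1 : (i : ℝ) ≤ G * t) (h2 : (G : ℝ) * t < i + 1) :
    1 - 1 / (4 * K * ρ ^ 2) ≤ ∑ m ∈ Sset K G ρ i, fw K (t - m / K) := by
  have hK0 : (0 : ℝ) < K := by exact_mod_cast hK
  have hG0 : (0 : ℝ) < G := by exact_mod_cast hG
  have hi' : (i : ℝ) + 1 ≤ G := by exact_mod_cast hi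
  have hsub : Sset K G ρ i ⊆ range K := by
    intro m hm
    unfold Sset at hm
    rw [Finset.mem_union, Finset.mem_union] at hm
    rcases hm with (hm | hm) | hm <;> exact (Finset.mem_filter.1 hm).1
  have htot : ∑ m ∈ range K, fw K (t - m / K) = 1 := by
    rw [hP K K t hK le_rfl, div_self hK0.ne']
  have hsplit := Finset.sum_sdiff (f := fun m : ℕ => fw K (t - m / K)) hsub
  have t0 : 0 ≤ t := by
    by_contra hneg
    push Not at hneg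
    nlinarith [mul_neg_of_pos_of_neg hG0 hneg, Nat.cast_nonneg (α := ℝ) i]
  have t1 : t < 1 := by
    by_contra hneg
    push Not at hneg
    nlinarith
  have hlo : (i : ℝ) / G ≤ t := by
    rw [div_le_iff₀ hG0]
    linarith
  have hhi : t < (i + 1) / G := by
    rw [lt_div_iff₀ hG0]
    linarith
  have hb : ∀ m ∈ range K \ Sset K G ρ i, fw K (t - m / K) ≤ 1 / (2 * K * ρ) ^ 2 := by
    intro m hm
    rw [Finset.mem_sdiff] at hm
    obtain ⟨hm1, hm2⟩ := hm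
    have hmK : (m : ℝ) < K := by exact_mod_cast Finset.mem_range.1 hm1
    unfold Sset at hm2
    rw [Finset.mem_union, Finset.mem_union, not_or, not_or] at hm2
    obtain ⟨⟨c1, c2⟩, c3⟩ := hm2
    have d1 : ¬ (K * (i / G - ρ) ≤ (m : ℝ) ∧ (m : ℝ) ≤ K * ((i + 1) / G + ρ)) := fun h =>
      c1 (Finset.mem_filter.2 ⟨hm1, h⟩)
    have d2 : ¬ ((0 : ℝ) ≤ (m : ℝ) ∧ (m : ℝ) ≤ K * ρ) := fun h =>
      c2 (Finset.mem_filter.2 ⟨hm1, h⟩)
    have d3 : ¬ (K * (1 - ρ) ≤ (m : ℝ) ∧ (m : ℝ) ≤ K) := fun h =>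
      c3 (Finset.mem_filter.2 ⟨hm1, h⟩)
    have e2 : K * ρ < m := by
      by_contra h
      exact d2 ⟨Nat.cast_nonneg m, not_lt.1 h⟩
    have e3 : (m : ℝ) < K * (1 - ρ) := by
      by_contra h
      exact d3 ⟨not_lt.1 h, hmK.le⟩
    set y : ℝ := (m : ℝ) / K with hy
    have hmy : (m : ℝ) = K * y := by
      rw [hy]
      field_simp
    have f2 : ρ < y := by
      rw [hmy] at e2
      exact lt_of_mul_lt_mul_left e2 hK0.le
    have f3 : y < 1 - ρ := by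
      rw [hmy] at e3
      exact lt_of_mul_lt_mul_left e3 hK0.le
    have f1 : y < i / G - ρ ∨ (i + 1) / G + ρ < y := by
      by_contra h
      push Not at h
      refine d1 ⟨?_, ?_⟩
      · rw [hmy]
        exact mul_le_mul_of_nonneg_left h.1 hK0.le
      · rw [hmy]
        exact mul_le_mul_of_nonneg_left h.2 hK0.le
    refine hF.2.2.1 K ρ (t - y) hK hρ ?_ ?_
    · rcases f1 with f1 | f1
      · exact le_trans (by linarith) (le_abs_self _)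
      · exact le_trans (by linarith) (neg_le_abs _)
    · exact abs_le.2 ⟨by linarith, by linarith⟩
  have hcount : ∑ m ∈ range K \ Sset K G ρ i, fw K (t - m / K) ≤ K * (1 / (2 * K * ρ) ^ 2) := by
    refine (Finset.sum_le_card_nsmul _ _ _ hb).trans ?_
    rw [nsmul_eq_mul]
    refine mul_le_mul_of_nonneg_right ?_ (by positivity)
    have : #(range K \ Sset K G ρ i) ≤ K := by
      refine (Finset.card_le_card Finset.sdiff_subset).trans ?_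
      rw [Finset.card_range]
    exact_mod_cast this
  have he : (K : ℝ) * (1 / (2 * K * ρ) ^ 2) = 1 / (4 * K * ρ ^ 2) := by
    field_simp
    ring
  linarith

theorem upper (hF : FEJ) (hA : AVG) (hP : POU) (G : ℕ) (hG : 1 ≤ G) (ε : ℝ) (hε : 0 < ε) :
    ∃ (K : ℕ) (κ : ℝ), 0 < κ ∧ ∀ (ι : Type) (X : Finset ι) (a c : ι → ℝ), U01 X a → U01 X c →
      Eq2 X a c K κ → ∀ i j : ℕ, i < G → j < G →
      (#(X.filter (fun x => ⌊(G : ℝ) * a x⌋₊ = i ∧ ⌊(G : ℝ) * c x⌋₊ = j)) : ℝ) ≤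
        (1 / (G : ℝ) ^ 2 + ε) * #X := by
  classical
  have hG0 : (0 : ℝ) < G := by exact_mod_cast hG
  -- choice of the parameters
  obtain ⟨N, hN1, hN2⟩ : ∃ N : ℕ, 1 ≤ N ∧
      (1 / (G : ℝ) + 4 * (1 / N) + 3 * (1 / N) ^ 4) ^ 2 * (1 + (1 / (N : ℝ)) ^ 4) /
        (1 - (1 / (N : ℝ)) ^ 2 / 4) ^ 2 < 1 / (G : ℝ) ^ 2 + ε := by
    let f : ℝ → ℝ := fun x => (1 / (G : ℝ) + 4 * x + 3 * x ^ 4) ^ 2 * (1 + x ^ 4) /
      (1 - x ^ 2 / 4) ^ 2
    have hf : ContinuousAt f 0 := by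
      refine ContinuousAt.div ?_ ?_ (by norm_num)
      · fun_prop
      · fun_prop
    have h0 : f 0 < 1 / (G : ℝ) ^ 2 + ε := by
      simp only [f]
      have : (1 / (G : ℝ) + 4 * 0 + 3 * 0 ^ 4) ^ 2 * (1 + (0 : ℝ) ^ 4) / (1 - (0 : ℝ) ^ 2 / 4) ^ 2 =
          1 / (G : ℝ) ^ 2 := by
        norm_num
      rw [this]
      linarith
    have h1 : ∀ᶠ x in nhds (0 : ℝ), f x < 1 / (G : ℝ) ^ 2 + ε := hf.eventually_lt_const h0
    have h2 := (tendsto_one_div_atTop_nhds_zero_nat (𝕜 := ℝ)).eventually h1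
    obtain ⟨N, hN⟩ := (h2.and (Filter.eventually_ge_atTop 1)).exists
    exact ⟨N, hN.2, hN.1⟩
  have hNr : (1 : ℝ) ≤ N := by exact_mod_cast hN1
  have hN0 : (0 : ℝ) < N := by linarith
  set x₀ : ℝ := 1 / (N : ℝ) with hx₀
  have hx0 : 0 < x₀ := by positivity
  have hx1 : x₀ ≤ 1 := by
    rw [hx₀, div_le_one hN0]
    exact hNr
  have hNx : (N : ℝ) * x₀ = 1 := by
    rw [hx₀]
    field_simp
  set K : ℕ := N ^ 4 with hKdef
  have hK1 : 1 ≤ K := Nat.one_le_pow _ _ hN1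
  have hKr : (K : ℝ) = (N : ℝ) ^ 4 := by
    rw [hKdef]
    push_cast
    rfl
  have hK0 : (0 : ℝ) < K := by exact_mod_cast hK1
  have hKx : (K : ℝ) * x₀ ^ 4 = 1 := by
    rw [hKr, ← mul_pow, hNx, one_pow]
  refine ⟨K, 1 / (K : ℝ) ^ 3, by positivity, ?_⟩
  intro ι X a c ha hc hE i j hi hj
  set κ : ℝ := 1 / (K : ℝ) ^ 3 with hκ
  set Ce := X.filter (fun x => ⌊(G : ℝ) * a x⌋₊ = i ∧ ⌊(G : ℝ) * c x⌋₊ = j) with hcell
  set θ : ℝ := 1 - 1 / (4 * K * x₀ ^ 2) with hθ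
  have hθ' : θ = 1 - x₀ ^ 2 / 4 := by
    rw [hθ]
    congr 1
    rw [div_eq_div_iff (by positivity) (by norm_num)]
    nlinarith [hKx]
  have hθpos : 0 < θ := by
    rw [hθ']
    nlinarith
  have hcellpt : ∀ x ∈ Ce, θ ^ 2 ≤ ∑ m ∈ Sset K G x₀ i, ∑ m' ∈ Sset K G x₀ j,
      fw K (a x - m / K) * fw K (c x - m' / K) := by
    intro x hx
    obtain ⟨hxX, h1, h2⟩ := Finset.mem_filter.1 hx
    obtain ⟨p1, p2⟩ := (Nat.floor_eq_iff (mul_nonneg hG0.le (ha x hxX).1)).1 h1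
    obtain ⟨q1, q2⟩ := (Nat.floor_eq_iff (mul_nonneg hG0.le (hc x hxX).1)).1 h2
    have m1 := mass hF hP K G hK1 hG x₀ hx0 i hi (a x) p1 p2
    have m2 := mass hF hP K G hK1 hG x₀ hx0 j hj (c x) q1 q2
    rw [← Finset.sum_mul_sum, sq]
    exact mul_le_mul m1 m2 hθpos.le (hθpos.le.trans m1)
  have hnn : ∀ x (m m' : ℕ), 0 ≤ fw K (a x - m / K) * fw K (c x - m' / K) := fun x m m' =>
    mul_nonneg (hF.1 _ _).1 (hF.1 _ _).1
  have hsum1 : θ ^ 2 * #Ce ≤ ∑ x ∈ X, ∑ m ∈ Sset K G x₀ i, ∑ m' ∈ Sset K G x₀ j,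
      fw K (a x - m / K) * fw K (c x - m' / K) := by
    calc θ ^ 2 * #Ce = ∑ _x ∈ Ce, θ ^ 2 := by
          rw [Finset.sum_const, nsmul_eq_mul, mul_comm]
      _ ≤ ∑ x ∈ Ce, ∑ m ∈ Sset K G x₀ i, ∑ m' ∈ Sset K G x₀ j,
          fw K (a x - m / K) * fw K (c x - m' / K) := Finset.sum_le_sum hcellpt
      _ ≤ _ := Finset.sum_le_sum_of_subset_of_nonneg (Finset.filter_subset _ _)
          fun x _ _ => Finset.sum_nonneg fun m _ => Finset.sum_nonneg fun m' _ => hnn x m m'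
  have havg : ∀ m m' : ℕ, ∑ x ∈ X, fw K (a x - m / K) * fw K (c x - m' / K) ≤
      (1 / (K : ℝ) ^ 2 + κ) * #X := by
    intro m m'
    have h := hA ι X a (fun _ => 0) c K 1 K κ (m / K) 0 (m' / K) hK1 le_rfl hK1
      (by positivity) (by
        intro p q r hp hq hr hne
        have hq0 : q = 0 := by
          have : |q| < 1 := by exact_mod_cast hq
          exact Int.abs_lt_one_iff.1 this
        subst hq0
        have hh := hE p r hp hr (fun hpr => hne ⟨hpr.1, rfl, hpr.2⟩)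
        simpa using hh)
    have h' := (abs_le.1 h).2
    have e1 : ∑ x ∈ X, fw K (a x - m / K) * fw 1 ((0 : ℝ) - 0) * fw K (c x - m' / K) =
        ∑ x ∈ X, fw K (a x - m / K) * fw K (c x - m' / K) := by
      refine Finset.sum_congr rfl fun x _ => ?_
      rw [hF.2.2.2.2, mul_one]
    rw [e1] at h'
    have e2 : (#X : ℝ) / (K * (1 : ℕ) * K) = 1 / (K : ℝ) ^ 2 * #X := by
      push_cast
      field_simp
    rw [e2] at h'
    linarith
  have hsum2 : ∑ x ∈ X, ∑ m ∈ Sset K G x₀ i, ∑ m' ∈ Sset K G x₀ j,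
      fw K (a x - m / K) * fw K (c x - m' / K) ≤
      #(Sset K G x₀ i) * (#(Sset K G x₀ j) * ((1 / (K : ℝ) ^ 2 + κ) * #X)) := by
    rw [Finset.sum_comm]
    refine (Finset.sum_le_card_nsmul _ _ (#(Sset K G x₀ j) * ((1 / (K : ℝ) ^ 2 + κ) * #X))
      fun m _ => ?_).trans (le_of_eq (nsmul_eq_mul _ _))
    rw [Finset.sum_comm]
    exact (Finset.sum_le_card_nsmul _ _ ((1 / (K : ℝ) ^ 2 + κ) * #X)
      fun m' _ => havg m m').trans (le_of_eq (nsmul_eq_mul _ _))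
  have hSi := card_Sset K G x₀ hx0.le i
  have hSj := card_Sset K G x₀ hx0.le j
  have hX0 : (0 : ℝ) ≤ #X := Nat.cast_nonneg _
  set B : ℝ := K * (1 / G + 4 * x₀) + 3 with hB
  have hB0 : 0 ≤ B := by positivity
  have hρX : 0 ≤ (1 / (K : ℝ) ^ 2 + κ) * #X := by positivity
  have hfin : θ ^ 2 * #Ce ≤ B * (B * ((1 / (K : ℝ) ^ 2 + κ) * #X)) :=
    hsum1.trans (hsum2.trans (mul_le_mul hSi (mul_le_mul_of_nonneg_right hSj hρX)
      (mul_nonneg (Nat.cast_nonneg _) hρX) hB0))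
  have hxK : x₀ ^ 4 = 1 / K := by
    rw [eq_div_iff hK0.ne']
    linarith
  have hBe : B * (B * ((1 / (K : ℝ) ^ 2 + κ) * #X)) =
      ((1 / (G : ℝ) + 4 * x₀ + 3 * x₀ ^ 4) ^ 2 * (1 + x₀ ^ 4)) * #X := by
    rw [hB, hκ, hxK]
    field_simp
  rw [hBe] at hfin
  have hlast : (#Ce : ℝ) ≤ (1 / (G : ℝ) + 4 * x₀ + 3 * x₀ ^ 4) ^ 2 * (1 + x₀ ^ 4) /
      (1 - x₀ ^ 2 / 4) ^ 2 * #X := by
    rw [← hθ', div_mul_eq_mul_div, le_div_iff₀ (by positivity)]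
    linarith
  exact hlast.trans (mul_le_mul_of_nonneg_right hN2.le hX0)

theorem t_BOX2 (hF : FEJ) (hA : AVG) (hP : POU) : BOX2 := by
  classical
  intro G ε hG hε
  have hG0 : (0 : ℝ) < G := by exact_mod_cast hG
  have hG1 : (1 : ℝ) ≤ G := by exact_mod_cast hG
  obtain ⟨K, κ, hκ, hU⟩ := upper hF hA hP G hG (ε / (G : ℝ) ^ 2) (by positivity)
  refine ⟨K, κ, hκ, ?_⟩
  intro ι X a c ha hc hE i j hi hj
  have hup := hU ι X a c ha hc hE
  have hX0 : (0 : ℝ) ≤ #X := Nat.cast_nonneg _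
  have hGsq : (1 : ℝ) ≤ (G : ℝ) ^ 2 := one_le_pow₀ hG1
  have hεG : ε / (G : ℝ) ^ 2 ≤ ε := div_le_self hε.le hGsq
  rw [abs_le]
  constructor
  · -- lower bound
    have hmaps : ∀ x ∈ X, (⌊(G : ℝ) * a x⌋₊, ⌊(G : ℝ) * c x⌋₊) ∈ range G ×ˢ range G := by
      intro x hx
      rw [Finset.mem_product, Finset.mem_range, Finset.mem_range]
      refine ⟨(Nat.floor_lt (mul_nonneg hG0.le (ha x hx).1)).2 ?_,
        (Nat.floor_lt (mul_nonneg hG0.le (hc x hx).1)).2 ?_⟩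
      · nlinarith [(ha x hx).2]
      · nlinarith [(hc x hx).2]
    have hpart := Finset.card_eq_sum_card_fiberwise hmaps
    have hpart' : (#X : ℝ) = ∑ q ∈ range G ×ˢ range G,
        (#(X.filter (fun x => (⌊(G : ℝ) * a x⌋₊, ⌊(G : ℝ) * c x⌋₊) = q)) : ℝ) := by
      exact_mod_cast hpart
    have hmem : (i, j) ∈ range G ×ˢ range G := by
      rw [Finset.mem_product, Finset.mem_range, Finset.mem_range]
      exact ⟨hi, hj⟩
    have hcelleq : ∀ q : ℕ × ℕ, X.filter (fun x => (⌊(G : ℝ) * a x⌋₊, ⌊(G : ℝ) * c x⌋₊) = q) =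
        X.filter (fun x => ⌊(G : ℝ) * a x⌋₊ = q.1 ∧ ⌊(G : ℝ) * c x⌋₊ = q.2) := by
      intro q
      refine Finset.filter_congr fun x _ => ?_
      rw [Prod.ext_iff]
    rw [← Finset.add_sum_erase _ _ hmem] at hpart'
    have hrest : ∑ q ∈ (range G ×ˢ range G).erase (i, j),
        (#(X.filter (fun x => (⌊(G : ℝ) * a x⌋₊, ⌊(G : ℝ) * c x⌋₊) = q)) : ℝ) ≤
        ((G : ℝ) ^ 2 - 1) * ((1 / (G : ℝ) ^ 2 + ε / (G : ℝ) ^ 2) * #X) := by
      refine (Finset.sum_le_card_nsmul _ _ ((1 / (G : ℝ) ^ 2 + ε / (G : ℝ) ^ 2) * #X)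
        fun q hq => ?_).trans (le_of_eq ?_)
      · have hq' := Finset.mem_product.1 (Finset.mem_of_mem_erase hq)
        rw [hcelleq q]
        exact hup q.1 q.2 (Finset.mem_range.1 hq'.1) (Finset.mem_range.1 hq'.2)
      · rw [nsmul_eq_mul, Finset.card_erase_of_mem hmem, Finset.card_product, Finset.card_range,
          Nat.cast_sub (Nat.one_le_iff_ne_zero.2 (by positivity))]
        push_cast
        ring
    rw [hcelleq (i, j)] at hpart'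
    have hkey : ((G : ℝ) ^ 2 - 1) * ((1 / (G : ℝ) ^ 2 + ε / (G : ℝ) ^ 2) * #X) ≤
        #X - #X / (G : ℝ) ^ 2 + ε * #X := by
      have e1 : ((G : ℝ) ^ 2 - 1) * ((1 / (G : ℝ) ^ 2 + ε / (G : ℝ) ^ 2) * #X) =
          #X - #X / (G : ℝ) ^ 2 + ε * #X - ε / (G : ℝ) ^ 2 * #X := by
        field_simp
        ring
      rw [e1]
      have : 0 ≤ ε / (G : ℝ) ^ 2 * #X := by positivity
      linarith
    have hpart'' : (#X : ℝ) ≤
        #(X.filter (fun x => ⌊(G : ℝ) * a x⌋₊ = i ∧ ⌊(G : ℝ) * c x⌋₊ = j)) +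
        (#X - #X / (G : ℝ) ^ 2 + ε * #X) := by
      calc (#X : ℝ) = _ := hpart'
        _ ≤ _ := add_le_add le_rfl (hrest.trans hkey)
    linarith
  · have h := hup i j hi hj
    have : (1 / (G : ℝ) ^ 2 + ε / (G : ℝ) ^ 2) * #X ≤ #X / (G : ℝ) ^ 2 + ε * #X := by
      have := mul_le_mul_of_nonneg_right hεG hX0
      have e : (1 / (G : ℝ) ^ 2 + ε / (G : ℝ) ^ 2) * #X =
          #X / (G : ℝ) ^ 2 + ε / (G : ℝ) ^ 2 * #X := by ring
      linarith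
    linarith

end Pool.Agent.Helper27.CO
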