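import Pool.Agent.Helper74.CO.Goals

/-!
# Packet CO-HM (project CO, MP_c5396e_co): the Halász–Montgomery inequality
-/

set_option autoImplicit false

namespace Pool.Agent.Helper27.CO

open Finset Pool.Agent.Helper74.CO

theorem exists_phase (z : ℂ) : ∃ c : ℂ, ‖c‖ = 1 ∧ c * z = (‖z‖ : ℂ) := by
  by_cases hz : z = 0
  · exact ⟨1, by simp, by simp [hz]⟩
  · have hn : (‖z‖ : ℂ) ≠ 0 := by
      rw [Ne, Complex.ofReal_eq_zero, norm_eq_zero]
      exact hz
    refine ⟨(starRingEnd ℂ) z / ‖z‖, ?_, ?_⟩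
    · rw [norm_div, RCLike.norm_conj, Complex.norm_real, norm_norm,
        div_self (norm_ne_zero_iff.2 hz)]
    · rw [div_mul_eq_mul_div, div_eq_iff hn, Complex.conj_mul', sq]

theorem t_HM : HM := by
  classical
  intro F ι _ _ R f φ κ ε hκ hε hf hφ hS hT
  have hq : (0 : ℝ) < Fintype.card F := by exact_mod_cast Fintype.card_pos
  set q : ℝ := (Fintype.card F : ℝ) with hqdef
  rcases R.eq_empty_or_nonempty with h0 | hne
  · subst h0
    simp
  have hN : (0 : ℝ) < #R := by exact_mod_cast hne.card_pos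
  choose c hc1 hc2 using fun i : ι => exists_phase (∑ x, f x * φ i x)
  set g : F → ℂ := fun x => ∑ i ∈ R, c i * φ i x with hg
  -- the first bound
  have h1 : (#R : ℝ) * κ * q ≤ ∑ x, ‖g x‖ := by
    have e1 : (∑ i ∈ R, (‖∑ x, f x * φ i x‖ : ℂ)) = ∑ x, f x * g x := by
      calc (∑ i ∈ R, (‖∑ x, f x * φ i x‖ : ℂ)) = ∑ i ∈ R, c i * ∑ x, f x * φ i x :=
            Finset.sum_congr rfl fun i _ => (hc2 i).symm
        _ = ∑ i ∈ R, ∑ x, c i * (f x * φ i x) :=
            Finset.sum_congr rfl fun i _ => Finset.mul_sum _ _ _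
        _ = ∑ x, ∑ i ∈ R, c i * (f x * φ i x) := Finset.sum_comm
        _ = ∑ x, f x * g x := by
            refine Finset.sum_congr rfl fun x _ => ?_
            rw [hg, Finset.mul_sum]
            exact Finset.sum_congr rfl fun i _ => by ring
    have e2 : (∑ i ∈ R, ‖∑ x, f x * φ i x‖) = ‖∑ x, f x * g x‖ := by
      rw [← e1, ← Complex.ofReal_sum, Complex.norm_real, Real.norm_of_nonneg]
      exact Finset.sum_nonneg fun i _ => norm_nonneg _
    calc (#R : ℝ) * κ * q = ∑ i ∈ R, κ * q := by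
          rw [Finset.sum_const, nsmul_eq_mul]
          ring
      _ ≤ ∑ i ∈ R, ‖∑ x, f x * φ i x‖ := Finset.sum_le_sum fun i hi => hS i hi
      _ = ‖∑ x, f x * g x‖ := e2
      _ ≤ ∑ x, ‖f x * g x‖ := norm_sum_le _ _
      _ ≤ ∑ x, ‖g x‖ := by
          refine Finset.sum_le_sum fun x _ => ?_
          rw [norm_mul]
          exact mul_le_of_le_one_left (norm_nonneg _) (hf x)
  -- Cauchy–Schwarz
  have h2 : (∑ x, ‖g x‖) ^ 2 ≤ q * ∑ x, ‖g x‖ ^ 2 := by
    have := sq_sum_le_card_mul_sum_sq (s := (Finset.univ : Finset F)) (f := fun x => ‖g x‖)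
    simpa [hqdef] using this
  -- the second moment
  have h3 : ∑ x, ‖g x‖ ^ 2 ≤
      ∑ i ∈ R, ∑ i' ∈ R, ‖∑ x, φ i x * (starRingEnd ℂ) (φ i' x)‖ := by
    have e1 : ((∑ x, ‖g x‖ ^ 2 : ℝ) : ℂ) = ∑ i ∈ R, ∑ i' ∈ R, c i * (starRingEnd ℂ) (c i') *
        ∑ x, φ i x * (starRingEnd ℂ) (φ i' x) := by
      calc ((∑ x, ‖g x‖ ^ 2 : ℝ) : ℂ) = ∑ x, g x * (starRingEnd ℂ) (g x) := by
            rw [Complex.ofReal_sum]
            refine Finset.sum_congr rfl fun x _ => ?_
            rw [Complex.mul_conj', Complex.ofReal_pow]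
        _ = ∑ x, ∑ i ∈ R, ∑ i' ∈ R, c i * (starRingEnd ℂ) (c i') *
            (φ i x * (starRingEnd ℂ) (φ i' x)) := by
            refine Finset.sum_congr rfl fun x _ => ?_
            simp only [hg]
            rw [map_sum, Finset.sum_mul_sum]
            refine Finset.sum_congr rfl fun i _ => Finset.sum_congr rfl fun i' _ => ?_
            rw [map_mul]
            ring
        _ = ∑ i ∈ R, ∑ i' ∈ R, ∑ x, c i * (starRingEnd ℂ) (c i') *
            (φ i x * (starRingEnd ℂ) (φ i' x)) := by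
            rw [Finset.sum_comm]
            exact Finset.sum_congr rfl fun i _ => Finset.sum_comm
        _ = _ := by
            refine Finset.sum_congr rfl fun i _ => Finset.sum_congr rfl fun i' _ => ?_
            rw [Finset.mul_sum]
    have e2 : ∑ x, ‖g x‖ ^ 2 = ‖((∑ x, ‖g x‖ ^ 2 : ℝ) : ℂ)‖ := by
      rw [Complex.norm_real, Real.norm_of_nonneg]
      exact Finset.sum_nonneg fun x _ => sq_nonneg _
    rw [e2, e1]
    refine (norm_sum_le _ _).trans (Finset.sum_le_sum fun i _ => ?_)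
    refine (norm_sum_le _ _).trans (Finset.sum_le_sum fun i' _ => ?_)
    rw [norm_mul, norm_mul, hc1, RCLike.norm_conj, hc1, one_mul, one_mul]
  -- the bound of the rows
  have h4 : ∀ i ∈ R, ∑ i' ∈ R, ‖∑ x, φ i x * (starRingEnd ℂ) (φ i' x)‖ ≤
      2 * q + #R * ε * q := by
    intro i hi
    obtain ⟨i₀, hi₀⟩ := hT i hi
    have hb : ∀ i' ∈ R, ‖∑ x, φ i x * (starRingEnd ℂ) (φ i' x)‖ ≤ q := by
      intro i' hi'
      calc ‖∑ x, φ i x * (starRingEnd ℂ) (φ i' x)‖
          ≤ ∑ x, ‖φ i x * (starRingEnd ℂ) (φ i' x)‖ := norm_sum_le _ _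
        _ ≤ ∑ _x : F, (1 : ℝ) := by
            refine Finset.sum_le_sum fun x _ => ?_
            rw [norm_mul, RCLike.norm_conj]
            exact mul_le_one₀ (hφ i hi x) (norm_nonneg _) (hφ i' hi' x)
        _ = q := by simp [hqdef]
    have hc : ∀ i' ∈ R, ‖∑ x, φ i x * (starRingEnd ℂ) (φ i' x)‖ ≤
        (if i' = i then q else 0) + (if i' = i₀ then q else 0) + ε * q := by
      intro i' hi'
      have hεq : 0 ≤ ε * q := mul_nonneg hε hq.le
      by_cases ha : i' = i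
      · rw [if_pos ha]
        have : (0 : ℝ) ≤ if i' = i₀ then q else 0 := by split_ifs <;> linarith
        linarith [hb i' hi']
      · by_cases hb' : i' = i₀
        · rw [if_neg ha, if_pos hb']
          linarith [hb i' hi']
        · rw [if_neg ha, if_neg hb']
          linarith [hi₀ i' hi' ha hb']
    refine (Finset.sum_le_sum hc).trans ?_
    rw [Finset.sum_add_distrib, Finset.sum_add_distrib, Finset.sum_ite_eq', Finset.sum_ite_eq',
      Finset.sum_const, nsmul_eq_mul, if_pos hi]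
    have : (if i₀ ∈ R then q else 0) ≤ q := by split_ifs <;> linarith
    linarith
  have h5 : ∑ x, ‖g x‖ ^ 2 ≤ #R * (2 * q + #R * ε * q) := by
    refine h3.trans ((Finset.sum_le_sum h4).trans ?_)
    rw [Finset.sum_const, nsmul_eq_mul]
  have h6 : ((#R : ℝ) * κ * q) ^ 2 ≤ q * (#R * (2 * q + #R * ε * q)) := by
    calc ((#R : ℝ) * κ * q) ^ 2 ≤ (∑ x, ‖g x‖) ^ 2 :=
          pow_le_pow_left₀ (by positivity) h1 2
      _ ≤ q * ∑ x, ‖g x‖ ^ 2 := h2
      _ ≤ _ := mul_le_mul_of_nonneg_left h5 hq.le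
  have h7 : (#R * q ^ 2) * ((#R : ℝ) * κ ^ 2) ≤ (#R * q ^ 2) * (2 + #R * ε) := by
    nlinarith [h6]
  exact le_of_mul_le_mul_left h7 (by positivity)

end Pool.Agent.Helper27.CO
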